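import Pool.Agent.Lib.MP_4b70aa_gt.Iso
import Pool.Agent.Lib.MP_4b70aa_gt.Alg

set_option autoImplicit false

namespace Pool.Agent.Results.MP_4b70aa_gt.Counterexample

open Pool.Agent.Lib.MP_4b70aa_gt

/-- A closed connected oriented Riemannian manifold that is iso-enlargeable and not enlargeable. -/
theorem result :
    ∃ (n : ℕ) (X : ORM n), CompactSpace X.X ∧ IsoEnlargeable X ∧ ¬ Enlargeable X := by
  obtain ⟨V, _, _, X, S, _, hX, ⟨D⟩⟩ := exists_cx
  exact ⟨X.n, reduction X.cpt ((Cx.data _).main (Cx.grp hX)) D.hIE⟩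

end Pool.Agent.Results.MP_4b70aa_gt.Counterexample
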